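import Mathlib

namespace Pool.Agent.Results.MP_a1f67d_pr.Shift

open MeasureTheory ProbabilityTheory Filter Topology Set

noncomputable def ν : Measure Bool := uniformOn univ

instance : IsProbabilityMeasure ν := by unfold ν; infer_instance

theorem ν_sing (b : Bool) : ν.real {b} = 1 / 2 := by
  rw [ν, measureReal_def, uniformOn_univ]
  simp

noncomputable def μ : Measure (ℤ → Bool) := Measure.infinitePi fun _ => ν

instance : IsProbabilityMeasure μ := by unfold μ; infer_instance

def sh (n : ℕ) (ω : ℤ → Bool) : ℤ → Bool := fun i => ω (i + n)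

theorem sh_meas (n : ℕ) : Measurable (sh n) := by unfold sh; fun_prop

theorem sh_mp (n : ℕ) : MeasurePreserving (sh n) μ μ :=
  ⟨sh_meas n, Measure.map_infinitePi_infinitePi_of_inj (P := fun _ => ν)
    (f := fun i : ℤ => i + n) (add_left_injective _)⟩

def C (i : ℤ) : Set (ℤ → Bool) := {ω | ω i = true}

theorem C_meas (i : ℤ) : MeasurableSet (C i) :=
  (measurable_pi_apply (X := fun _ : ℤ => Bool) i) (measurableSet_singleton true)

theorem C_real (i : ℤ) : μ.real (C i) = 1 / 2 := by
  rw [← ν_sing true]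
  exact (measurePreserving_eval_infinitePi (fun _ : ℤ => ν) i).measureReal_preimage
    (measurableSet_singleton true).nullMeasurableSet

def s (b : Bool) : ℝ := if b then 1 else -1

def r (n : ℕ) (ω : ℤ → Bool) : ℝ := s (ω (-n))

theorem r_meas (n : ℕ) : Measurable (r n) :=
  (measurable_of_finite s).comp (measurable_pi_apply _)

theorem r_eq (n : ℕ) : r n = fun ω => 2 * (C (-n)).indicator 1 ω - 1 := by
  funext ω
  by_cases h : ω (-n) = true <;> simp [r, s, C, indicator, h]
  norm_num

theorem r_int (n : ℕ) (B : Set (ℤ → Bool)) :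
    ∫ ω in B, r n ω ∂μ = 2 * μ.real (B ∩ C (-n)) - μ.real B := by
  have h : Integrable (fun ω => 2 * (C (-n)).indicator (1 : (ℤ → Bool) → ℝ) ω) (μ.restrict B) :=
    ((integrable_const (1 : ℝ)).indicator (C_meas _)).const_mul 2
  rw [r_eq, integral_sub h (integrable_const _), integral_const_mul,
    integral_indicator_one (C_meas _)]
  simp [measureReal_restrict_apply (C_meas _), inter_comm]

theorem r_mem (n : ℕ) : MemLp (r n) 2 μ :=
  MemLp.of_bound (r_meas n).aestronglyMeasurable 1 (Eventually.of_forall fun ω => by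
    unfold r s; split_ifs <;> simp)

theorem orth : Orthonormal ℝ fun n => (r_mem n).toLp (r n) := by
  rw [orthonormal_iff_ite]
  intro n m
  rw [L2.inner_def, integral_congr_ae (g := fun ω => r m ω * r n ω) (by
    filter_upwards [(r_mem n).coeFn_toLp, (r_mem m).coeFn_toLp] with ω h1 h2
    rw [h1, h2]; simp)]
  split_ifs with h
  · have : ∀ ω, r m ω * r n ω = 1 := fun ω => by
      rw [h]; unfold r s; split_ifs <;> norm_num
    simp [this]
  · have h1 : IndepFun (r m) (r n) μ :=
      (iIndepFun_infinitePi (P := fun _ : ℤ => ν) (X := fun _ => s)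
        fun _ => measurable_of_finite s).indepFun (i := -m) (j := -n) (by simpa using Ne.symm h)
    rw [h1.integral_fun_mul_eq_mul_integral (r_meas m).aestronglyMeasurable
      (r_meas n).aestronglyMeasurable]
    have := r_int n univ
    rw [Measure.restrict_univ, univ_inter, C_real] at this
    rw [this]
    simp

theorem mix (B : Set (ℤ → Bool)) (hB : MeasurableSet B) :
    Tendsto (fun n : ℕ => 2 * μ.real (B ∩ C (-n))) atTop (𝓝 (μ.real B)) := by
  have h := (orth.inner_products_summable
    (indicatorConstLp 2 hB (measure_ne_top μ B) (1 : ℝ))).tendsto_atTop_zero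
  have h1 := (Real.continuous_sqrt.tendsto 0).comp h
  rw [Real.sqrt_zero] at h1
  refine tendsto_sub_nhds_zero_iff.1 (tendsto_zero_iff_norm_tendsto_zero.2 (h1.congr fun n => ?_))
  simp only [Function.comp, Real.sqrt_sq (norm_nonneg _)]
  rw [real_inner_comm, L2.inner_indicatorConstLp_one, ← r_int]
  congr 1
  exact integral_congr_ae (ae_restrict_of_ae (r_mem n).coeFn_toLp)

theorem cond_real (n : ℕ) (B : Set (ℤ → Bool)) (hB : MeasurableSet B) :
    (μ[|C 0]).real (sh n ⁻¹' B) = 2 * μ.real (B ∩ C (-n)) := by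
  rw [← (sh_mp n).measureReal_preimage (hB.inter (C_meas _)).nullMeasurableSet, measureReal_def,
    cond_apply (C_meas 0), ENNReal.toReal_mul, ENNReal.toReal_inv, ← measureReal_def, C_real,
    ← measureReal_def]
  congr 2
  · norm_num
  · ext ω
    simp [sh, C, and_comm]

theorem result : ∃ (E Ω : Type) (_ : MeasurableSpace E) (_ : MeasurableSpace Ω)
    (P P' : Measure Ω) (X X' : Ω → ℕ → E), IsProbabilityMeasure P ∧ IsProbabilityMeasure P' ∧
    Measurable X ∧ Measurable X' ∧
    (∀ A : Set (ℕ → E), MeasurableSet A →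
      Tendsto (fun n => P.real {ω | (fun k => X ω (n + k)) ∈ A}) atTop
        (𝓝 (P'.real {ω | X' ω ∈ A}))) ∧
    ∀ n, ∃ A : Set (ℕ → E), MeasurableSet A ∧
      1 / 2 ≤ |P.real {ω | (fun k => X ω (n + k)) ∈ A} - P'.real {ω | X' ω ∈ A}| := by
  have hX : Measurable fun (ω : ℤ → Bool) (k : ℕ) => sh k ω := measurable_pi_lambda _ sh_meas
  have e : ∀ (n : ℕ) (A : Set (ℕ → ℤ → Bool)), {ω | (fun k => sh (n + k) ω) ∈ A} =
      sh n ⁻¹' {ω | (fun k => sh k ω) ∈ A} := fun n A => by
    ext ω
    have : (fun k => sh (n + k) ω) = fun k => sh k (sh n ω) := by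
      funext k i
      simp only [sh]
      congr 1
      push_cast
      ring
    simp [this]
  refine ⟨ℤ → Bool, ℤ → Bool, inferInstance, inferInstance, μ[|C 0], μ, fun ω k => sh k ω,
    fun ω k => sh k ω, cond_isProbabilityMeasure fun h => ?_, inferInstance, hX, hX,
    fun A hA => ?_, fun n => ⟨{x | x 0 ∈ C (-n)}, measurable_pi_apply 0 (C_meas _), ?_⟩⟩
  · have := C_real 0
    rw [measureReal_def, h] at this
    norm_num at this
  · simp only [e]
    exact (mix _ (hX hA)).congr fun n => (cond_real n _ (hX hA)).symm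
  · have : {ω | (fun k => sh k ω) ∈ {x : ℕ → ℤ → Bool | x 0 ∈ C (-n)}} = C (-n) := by
      ext ω
      simp [sh, C]
    rw [e, this, cond_real n _ (C_meas _), inter_self, C_real]
    norm_num

end Pool.Agent.Results.MP_a1f67d_pr.Shift
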